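import Pool.Agent.W896.FD.OV

/-!
# Triangles in edge lists, and circuits of small formal degree
-/

set_option autoImplicit false
set_option maxHeartbeats 1000000

open Finset

namespace Pool.Agent.K7.H45.FDT

open Pool.Agent.W896.RK Pool.Agent.W896.HP Pool.Agent.W896.FD Pool.Agent.W896.FD.Star
open Pool.Agent.W896.FD.Tri (Mt mt_ne mt_symm mt_unique grS_0 grS_2)
open Pool.Agent.W896.FD.OV (pt pt_eq pt_other pt_inj pt_pt)

variable {m M b w : ℕ}

/-- The ends of the edge in the place `i` of the list: `s = false` is the first end, `s = true` the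
second end; the bit `(i, s, j)` of the input has the weight `2 ^ j`. -/
def vert (x : Fin m × Bool × Fin (w + 1) → Bool) (i : Fin m) (s : Bool) : ℕ :=
  Nat.ofBits (fun j => x (i, s, j))

/-- The input is a list of the `m` edges of a simple graph with the vertices `0, …, 2 m - 1`: the
first end of every edge is smaller than the second end, and no edge occurs twice. -/
def EdgeList (x : Fin m × Bool × Fin (w + 1) → Bool) : Prop :=
  (∀ i, vert x i false < vert x i true ∧ vert x i true < 2 * m) ∧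
    ∀ i j, vert x i false = vert x j false → vert x i true = vert x j true → i = j

/-- The graph has a triangle: the edges `{p, q}`, `{q, r}`, `{p, r}` are in the list for some
`p < q < r`. -/
def HasTriangle (x : Fin m × Bool × Fin (w + 1) → Bool) : Prop :=
  ∃ i j k, vert x i true = vert x j false ∧ vert x i false = vert x k false ∧
    vert x j true = vert x k true

/-- First ends. -/
def fe (M t : ℕ) : ℕ := if t < M then 0 else if t < 2 * M then 2 * (t - M) + 3 else 3 * M + 2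

open Classical in
/-- Second ends, the lowest bit of the free ones is zero. -/
noncomputable def se (c : Fin b × Fin 4 ↪ Fin M) (ρ : Equiv.Perm (Fin M)) (t : ℕ) : ℕ :=
  if t < M then 2 * (t + 1) else
  if h : t - M < M then
    (if t - M < (pt c ρ ⟨t - M, h⟩).val then 2 * (pt c ρ ⟨t - M, h⟩).val + 3
      else 2 * M + 2 + (t - M))
  else 3 * M + 3

/-- The fixed bits. -/
noncomputable def tb (c : Fin b × Fin 4 ↪ Fin M) (ρ : Equiv.Perm (Fin M))
    (v : Fin m × Bool × Fin (w + 1)) : Bool :=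
  if v.2.1 = true then (se c ρ v.1.val).testBit v.2.2.val else (fe M v.1.val).testBit v.2.2.val

/-- The free bits. -/
def fr (M : ℕ) (v : Fin m × Bool × Fin (w + 1)) : Option (Fin M) :=
  if v.2.1 = true ∧ v.2.2 = 0 then (if h : v.1.val < M then some ⟨v.1.val, h⟩ else none) else none

/-- The instance. -/
noncomputable def ins (m w : ℕ) (c : Fin b × Fin 4 ↪ Fin M) (ρ : Equiv.Perm (Fin M))
    (z z' : Fin b → Bool) : Fin m × Bool × Fin (w + 1) → Bool :=
  inI true (fr M) (fun ρ => tb c ρ) c ρ z z'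

/-- The free bit of a place. -/
noncomputable def lb (c : Fin b × Fin 4 ↪ Fin M) (ρ : Equiv.Perm (Fin M))
    (z z' : Fin b → Bool) (i : ℕ) : Bool :=
  if h : i < M then grS true c z z' (ρ.symm ⟨i, h⟩) else false

/-- The second ends. -/
noncomputable def sn (c : Fin b × Fin 4 ↪ Fin M) (ρ : Equiv.Perm (Fin M))
    (z z' : Fin b → Bool) (i : ℕ) : ℕ := se c ρ i + (lb c ρ z z' i).toNat

theorem se_lt (c : Fin b × Fin 4 ↪ Fin M) (ρ : Equiv.Perm (Fin M)) {t : ℕ} (ht : t < M) :
    se c ρ t = 2 * (t + 1) := by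
  unfold se; rw [if_pos ht]

theorem ins_true (c : Fin b × Fin 4 ↪ Fin M) (ρ : Equiv.Perm (Fin M)) (z z' : Fin b → Bool)
    (i : Fin m) (j : Fin (w + 1)) :
    ins m w c ρ z z' (i, true, j) = (sn c ρ z z' i.val).testBit j.val := by
  unfold ins inI fr tb sn lb
  by_cases hi : i.val < M
  · rw [se_lt c ρ hi]
    rcases eq_or_ne j 0 with rfl | hj
    · simp only [and_self, if_true, hi, dif_pos, Fin.val_zero]
      cases grS true c z z' (ρ.symm ⟨i.val, hi⟩)
      · simp [Nat.testBit_zero]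
      · simp [Nat.testBit_zero]
    · simp only [hj, and_false, if_false, if_true, hi, dif_pos]
      obtain ⟨j', hj'⟩ : ∃ j', j.val = j' + 1 := by
        refine ⟨j.val - 1, ?_⟩
        have : j.val ≠ 0 := fun h => hj (Fin.ext h)
        omega
      rw [hj', Nat.testBit_succ, Nat.testBit_succ]
      congr 1
      cases grS true c z z' (ρ.symm ⟨i.val, hi⟩)
      · simp only [Bool.toNat_false, se_lt c ρ hi, add_zero]
      · simp only [Bool.toNat_true, se_lt c ρ hi]; omega
  · simp only [hi, dif_neg, not_false_eq_true, Bool.toNat_false, add_zero, ite_self, if_true]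

theorem ins_false (c : Fin b × Fin 4 ↪ Fin M) (ρ : Equiv.Perm (Fin M)) (z z' : Fin b → Bool)
    (i : Fin m) (j : Fin (w + 1)) :
    ins m w c ρ z z' (i, false, j) = (fe M i.val).testBit j.val := by
  unfold ins inI fr tb
  simp

/-- The three kinds of places. -/
theorem cls (hm : m ≤ 2 * M + 1) (c : Fin b × Fin 4 ↪ Fin M) (ρ : Equiv.Perm (Fin M))
    (z z' : Fin b → Bool) (i : Fin m) :
    (∃ v : Fin M, i.val = v.val ∧ fe M i.val = 0 ∧ sn c ρ z z' i.val = 2 * v.val + 2 +
      (grS true c z z' (ρ.symm v)).toNat) ∨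
    (∃ v : Fin M, i.val = M + v.val ∧ fe M i.val = 2 * v.val + 3 ∧
      ((v.val < (pt c ρ v).val ∧ sn c ρ z z' i.val = 2 * (pt c ρ v).val + 3) ∨
        (¬ v.val < (pt c ρ v).val ∧ sn c ρ z z' i.val = 2 * M + 2 + v.val))) ∨
    (i.val = 2 * M ∧ fe M i.val = 3 * M + 2 ∧ sn c ρ z z' i.val = 3 * M + 3) := by
  have hi := i.isLt
  by_cases h1 : i.val < M
  · refine Or.inl ⟨⟨i.val, h1⟩, rfl, ?_, ?_⟩
    · unfold fe; rw [if_pos h1]
    · unfold sn lb
      rw [se_lt c ρ h1, dif_pos h1]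
      simp only
      omega
  by_cases h2 : i.val < 2 * M
  · refine Or.inr (Or.inl ⟨⟨i.val - M, by omega⟩, by simp only; omega, ?_, ?_⟩)
    · unfold fe
      rw [if_neg h1, if_pos h2]
    · have h3 : i.val - M < M := by omega
      unfold sn lb se
      rw [dif_neg h1, if_neg h1, dif_pos h3]
      by_cases h4 : i.val - M < (pt c ρ ⟨i.val - M, h3⟩).val
      · exact Or.inl ⟨h4, by rw [if_pos h4]; rfl⟩
      · exact Or.inr ⟨h4, by rw [if_neg h4]; rfl⟩
  · refine Or.inr (Or.inr ⟨by omega, ?_, ?_⟩)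
    · unfold fe
      rw [if_neg h1, if_neg h2]
    · have h3 : ¬ i.val - M < M := by omega
      unfold sn lb se
      rw [dif_neg h1, if_neg h1, dif_neg h3]
      rfl

theorem sn_lt (hM : 2 ≤ M) (hm : 2 * M ≤ m) (hm' : m ≤ 2 * M + 1) (c : Fin b × Fin 4 ↪ Fin M)
    (ρ : Equiv.Perm (Fin M)) (z z' : Fin b → Bool) (i : Fin m) :
    fe M i.val < sn c ρ z z' i.val ∧ sn c ρ z z' i.val < 2 * m := by
  have hi := i.isLt
  rcases cls hm' c ρ z z' i with ⟨v, h1, h2, h3⟩ | ⟨v, h1, h2, ⟨h4, h3⟩ | ⟨h4, h3⟩⟩ | ⟨h1, h2, h3⟩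
  · have := v.isLt
    have := Bool.toNat_le (grS true c z z' (ρ.symm v))
    omega
  · have := (pt c ρ v).isLt
    omega
  · have := v.isLt
    omega
  · omega

theorem vert_ins (hM : 2 ≤ M) (hm : 2 * M ≤ m) (hm' : m ≤ 2 * M + 1) (hw : 2 * m ≤ 2 ^ (w + 1))
    (c : Fin b × Fin 4 ↪ Fin M) (ρ : Equiv.Perm (Fin M)) (z z' : Fin b → Bool) (i : Fin m) :
    vert (ins m w c ρ z z') i false = fe M i.val ∧
      vert (ins m w c ρ z z') i true = sn c ρ z z' i.val := by
  obtain ⟨h1, h2⟩ := sn_lt hM hm hm' c ρ z z' i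
  constructor
  · unfold vert
    have h : (fun j => ins m w c ρ z z' (i, false, j)) =
        fun j : Fin (w + 1) => (fe M i.val).testBit j.val := by
      funext j
      exact ins_false c ρ z z' i j
    rw [h, Nat.ofBits_testBit, Nat.mod_eq_of_lt (by omega)]
  · unfold vert
    have h : (fun j => ins m w c ρ z z' (i, true, j)) =
        fun j : Fin (w + 1) => (sn c ρ z z' i.val).testBit j.val := by
      funext j
      exact ins_true c ρ z z' i j
    rw [h, Nat.ofBits_testBit, Nat.mod_eq_of_lt (by omega)]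

theorem valid (hM : 2 ≤ M) (hm : 2 * M ≤ m) (hm' : m ≤ 2 * M + 1) (hw : 2 * m ≤ 2 ^ (w + 1))
    (c : Fin b × Fin 4 ↪ Fin M) (ρ : Equiv.Perm (Fin M)) (z z' : Fin b → Bool) :
    EdgeList (ins m w c ρ z z') := by
  have hv := vert_ins hM hm hm' hw c ρ z z'
  constructor
  · intro i
    rw [(hv i).1, (hv i).2]
    exact sn_lt hM hm hm' c ρ z z' i
  · intro i j
    rw [(hv i).1, (hv j).1, (hv i).2, (hv j).2]
    intro h1 h2
    apply Fin.ext
    rcases cls hm' c ρ z z' i with ⟨v, a1, a2, a3⟩ | ⟨v, a1, a2, -⟩ | ⟨a1, a2, a3⟩ <;>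
    rcases cls hm' c ρ z z' j with ⟨u, b1, b2, b3⟩ | ⟨u, b1, b2, -⟩ | ⟨b1, b2, b3⟩
    · have := Bool.toNat_le (grS true c z z' (ρ.symm v))
      have := Bool.toNat_le (grS true c z z' (ρ.symm u))
      omega
    · omega
    · omega
    · omega
    · omega
    · have := v.isLt; omega
    · omega
    · have := u.isLt; omega
    · omega

/-- Only a pair of partners with free bits one is on a triangle. -/
theorem key (hM : 2 ≤ M) (hm : 2 * M ≤ m) (hm' : m ≤ 2 * M + 1) (hw : 2 * m ≤ 2 ^ (w + 1))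
    (c : Fin b × Fin 4 ↪ Fin M) (ρ : Equiv.Perm (Fin M)) (z z' : Fin b → Bool)
    (h : HasTriangle (ins m w c ρ z z')) :
    ∃ v : Fin M, grS true c z z' (ρ.symm v) = true ∧
      grS true c z z' (ρ.symm (pt c ρ v)) = true := by
  obtain ⟨i, j, k, h1, h2, h3⟩ := h
  have hv := vert_ins hM hm hm' hw c ρ z z'
  rw [(hv i).2, (hv j).1] at h1
  rw [(hv i).1, (hv k).1] at h2
  rw [(hv j).2, (hv k).2] at h3
  have hj := (sn_lt hM hm hm' c ρ z z' j).1
  rcases cls hm' c ρ z z' i with ⟨v, a1, a2, a3⟩ | ⟨v, a1, a2, -⟩ | ⟨a1, a2, a3⟩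
  · rcases cls hm' c ρ z z' j with ⟨u, b1, b2, b3⟩ | ⟨u, b1, b2, ⟨b4, b3⟩ | ⟨b4, b3⟩⟩ | ⟨b1, b2, b3⟩
    · omega
    · rcases cls hm' c ρ z z' k with ⟨t, c1, c2, c3⟩ | ⟨t, c1, c2, -⟩ | ⟨c1, c2, c3⟩
      · have e1 := Bool.toNat_le (grS true c z z' (ρ.symm v))
        have e2 := Bool.toNat_le (grS true c z z' (ρ.symm t))
        have huv : v = u := Fin.ext (by omega)
        have hpt : pt c ρ u = t := Fin.ext (by omega)
        refine ⟨u, ?_, ?_⟩
        · rw [← huv]
          cases hg : grS true c z z' (ρ.symm v)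
          · rw [hg, Bool.toNat_false] at a3; omega
          · rfl
        · rw [hpt]
          cases hg : grS true c z z' (ρ.symm t)
          · rw [hg, Bool.toNat_false] at c3; omega
          · rfl
      · omega
      · omega
    · exfalso
      rcases cls hm' c ρ z z' k with ⟨t, c1, c2, c3⟩ | ⟨t, c1, c2, -⟩ | ⟨c1, c2, c3⟩
      · have e2 := Bool.toNat_le (grS true c z z' (ρ.symm t))
        have := t.isLt
        omega
      · omega
      · omega
    · exfalso
      have e1 := Bool.toNat_le (grS true c z z' (ρ.symm v))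
      have := v.isLt
      omega
  · exfalso
    have hik : i = k := by
      rcases cls hm' c ρ z z' k with ⟨t, c1, c2, c3⟩ | ⟨t, c1, c2, -⟩ | ⟨c1, c2, c3⟩
      · omega
      · exact Fin.ext (by omega)
      · have := v.isLt
        omega
    rw [hik] at h1
    omega
  · exfalso
    have hik : i = k := by
      rcases cls hm' c ρ z z' k with ⟨t, c1, c2, c3⟩ | ⟨t, c1, c2, -⟩ | ⟨c1, c2, c3⟩
      · omega
      · have := t.isLt
        omega
      · exact Fin.ext (by omega)
    rw [hik] at h1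
    omega

theorem noTri (hM : 2 ≤ M) (hm : 2 * M ≤ m) (hm' : m ≤ 2 * M + 1) (hw : 2 * m ≤ 2 ^ (w + 1))
    (c : Fin b × Fin 4 ↪ Fin M) (ρ : Equiv.Perm (Fin M)) (z : Fin b → Bool) :
    ¬ HasTriangle (ins m w c ρ z z) := by
  intro h
  obtain ⟨v, hv1, hv2⟩ := key hM hm hm' hw c ρ z z h
  by_cases hv : ∃ u, Mt c ρ v u
  · obtain ⟨u, hu⟩ := hv
    rw [pt_eq hu] at hv2
    obtain ⟨q, ⟨e1, e2⟩ | ⟨e1, e2⟩⟩ := hu
    · rw [e1, Equiv.symm_apply_apply, grS_0] at hv1
      rw [e2, Equiv.symm_apply_apply, grS_2, hv1] at hv2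
      exact Bool.noConfusion hv2
    · rw [e1, Equiv.symm_apply_apply, grS_2] at hv1
      rw [e2, Equiv.symm_apply_apply, grS_0] at hv2
      rw [hv2] at hv1
      exact Bool.noConfusion hv1
  · -- an unmatched position has the bit zero
    have h0 : grS true c z z (ρ.symm v) = false := by
      unfold grS
      rw [fill_other]
      rintro (q | q) hq
      · apply hv
        refine ⟨ρ (c (q, 2)), q, Or.inl ⟨?_, rfl⟩⟩
        change c (q, 0) = ρ.symm v at hq
        rw [hq, Equiv.apply_symm_apply]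
      · apply hv
        refine ⟨ρ (c (q, 0)), q, Or.inr ⟨?_, rfl⟩⟩
        change c (q, 2) = ρ.symm v at hq
        rw [hq, Equiv.apply_symm_apply]
    rw [h0] at hv1
    exact Bool.noConfusion hv1

theorem yesTri (hM : 2 ≤ M) (hm : 2 * M ≤ m) (hm' : m ≤ 2 * M + 1) (hw : 2 * m ≤ 2 ^ (w + 1))
    (c : Fin b × Fin 4 ↪ Fin M) (ρ : Equiv.Perm (Fin M)) (z z' : Fin b → Bool) {q : Fin b}
    (hz : z q = true) (hz' : z' q = false) : HasTriangle (ins m w c ρ z z') := by
  have hv := vert_ins hM hm hm' hw c ρ z z'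
  have main : ∀ v u : Fin M, v.val < u.val → pt c ρ v = u →
      grS true c z z' (ρ.symm v) = true → grS true c z z' (ρ.symm u) = true →
      HasTriangle (ins m w c ρ z z') := by
    intro v u hvu hp hgv hgu
    have h1 := v.isLt
    have h2 := u.isLt
    refine ⟨⟨v.val, by omega⟩, ⟨M + v.val, by omega⟩, ⟨u.val, by omega⟩, ?_, ?_, ?_⟩
    · rw [(hv _).2, (hv _).1]
      rcases cls hm' c ρ z z' ⟨v.val, by omega⟩ with ⟨t, a1, a2, a3⟩ | ⟨t, a1, a2, -⟩ | ⟨a1, a2, a3⟩
      · simp only at a1 a3 ⊢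
        have : v = t := Fin.ext a1
        subst this
        rw [hgv, Bool.toNat_true] at a3
        rcases cls hm' c ρ z z' ⟨M + v.val, by omega⟩ with
          ⟨t, b1, b2, b3⟩ | ⟨t, b1, b2, -⟩ | ⟨b1, b2, b3⟩
        · simp only at b1; have := t.isLt; omega
        · simp only at b1 b2 ⊢; omega
        · simp only at b1; omega
      · simp only at a1; omega
      · simp only at a1; omega
    · rw [(hv _).1, (hv _).1]
      unfold fe
      simp only
      rw [if_pos h1, if_pos h2]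
    · rw [(hv _).2, (hv _).2]
      rcases cls hm' c ρ z z' ⟨u.val, by omega⟩ with ⟨t, a1, a2, a3⟩ | ⟨t, a1, a2, -⟩ | ⟨a1, a2, a3⟩
      · simp only at a1 a3 ⊢
        have : u = t := Fin.ext a1
        subst this
        rw [hgu, Bool.toNat_true] at a3
        rcases cls hm' c ρ z z' ⟨M + v.val, by omega⟩ with
          ⟨t, b1, b2, b3⟩ | ⟨t, b1, b2, ⟨b4, b3⟩ | ⟨b4, b3⟩⟩ | ⟨b1, b2, b3⟩
        · simp only at b1; have := t.isLt; omega
        · simp only at b1 b3 ⊢
          have : v = t := Fin.ext (by omega)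
          subst this
          rw [hp] at b3
          omega
        · simp only at b1
          have : v = t := Fin.ext (by omega)
          subst this
          rw [hp] at b4
          omega
        · simp only at b1; omega
      · simp only at a1; omega
      · simp only at a1; omega
  obtain ⟨v, hv'⟩ : ∃ v, v = ρ (c (q, 0)) := ⟨_, rfl⟩
  obtain ⟨u, hu⟩ : ∃ u, u = ρ (c (q, 2)) := ⟨_, rfl⟩
  have hp : pt c ρ u = v := pt_eq ⟨q, Or.inr ⟨hu, hv'⟩⟩
  have hp' : pt c ρ v = u := pt_eq ⟨q, Or.inl ⟨hv', hu⟩⟩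
  have hgv : grS true c z z' (ρ.symm v) = true := by
    rw [hv', Equiv.symm_apply_apply, grS_0, hz]
  have hgu : grS true c z z' (ρ.symm u) = true := by
    rw [hu, Equiv.symm_apply_apply, grS_2, hz']; rfl
  have hne : v ≠ u := mt_ne c ρ ⟨q, Or.inl ⟨hv', hu⟩⟩
  rcases lt_or_gt_of_ne (fun h => hne (Fin.ext h) : v.val ≠ u.val) with h | h
  · exact main v u h hp' hgv hgu
  · exact main u v h hp hgu hgv

/-- **Triangle detection.** -/
theorem edge (k m w : ℕ) (hw : 2 * m ≤ 2 ^ (w + 1))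
    (R : Type) [Fintype R] [Nonempty R] (U : R → Circ (Fin m × Bool × Fin (w + 1)))
    (hU : ∀ r x, EdgeList x → (U r).Val x (U r).out → ¬ HasTriangle x)
    (hc : ∀ x, EdgeList x → ¬ HasTriangle x →
      Nat.card R ≤ 2 ^ (m / 2 ^ (240 * (k + 1))) * Nat.card {r // (U r).Val x (U r).out})
    (hdeg : ∀ r, ∃ f : (U r).G → Fin m × Bool × Fin (w + 1) → ℕ, IsDeg (U r) id f ∧
      ∑ i, f (U r).out (i, true, 0) ≤ k * m) :
    ∃ r, m ≤ 2 ^ (240 * (k + 1)) * (Nat.log 2 (Fintype.card (U r).G) + 1) := by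
  classical
  obtain ⟨D, hD⟩ : ∃ D, D = 2 ^ (240 * (k + 1)) := ⟨_, rfl⟩
  obtain ⟨E, hE⟩ : ∃ E, E = 2 ^ (60 * (4 * k + 1)) := ⟨_, rfl⟩
  have hDE : D = 2 ^ 180 * E := by
    rw [hD, hE, ← pow_add]; congr 1; ring
  have hE1 : 1 ≤ E := by rw [hE]; exact Nat.one_le_two_pow
  have hDbig : 2 ^ 180 ≤ D := by rw [hDE]; exact Nat.le_mul_of_pos_right _ hE1
  rw [← hD] at hc ⊢
  rcases Nat.lt_or_ge m D with hnD | hnD
  · obtain ⟨r⟩ := (inferInstance : Nonempty R)
    exact ⟨r, hnD.le.trans (Nat.le_mul_of_pos_right _ (by omega))⟩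
  obtain ⟨M, hMm⟩ : ∃ M, M = m / 2 := ⟨_, rfl⟩
  have hm1 : 2 * M ≤ m := by omega
  have hm2 : m ≤ 2 * M + 1 := by omega
  have hM2 : 2 ≤ M := by
    have : 2 ^ 3 ≤ m := le_trans (by norm_num) (hDbig.trans hnD)
    omega
  have hn4 : m ≤ 4 * M := by omega
  obtain ⟨b, hb⟩ : ∃ b, b = M / 4 := ⟨_, rfl⟩
  have hb1 : M < 4 * (b + 1) := by rw [hb]; exact Nat.lt_mul_div_succ M (by norm_num)
  have hb2 : 4 * b ≤ M := by rw [hb]; exact Nat.mul_div_le _ _
  obtain ⟨c⟩ : Nonempty (Fin b × Fin 4 ↪ Fin M) := by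
    apply Function.Embedding.nonempty_of_card_le
    rw [Fintype.card_prod, Fintype.card_fin, Fintype.card_fin, Fintype.card_fin]
    omega
  have hdiv : m / D ≤ M / E := by
    rw [Nat.le_div_iff_mul_le (by omega)]
    have h1 : m / D * D ≤ m := Nat.div_mul_le_self _ _
    rw [hDE] at h1
    have h2 : m / D * (2 ^ 180 * E) = 2 ^ 180 * (m / D * E) := by ring
    rw [hDE] at h2 ⊢
    rw [h2] at h1
    omega
  obtain ⟨r, hr⟩ := finalI (ν := true) (4 * k) (n := M) (b := b) (by omega)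
    (fr (m := m) (w := w) M)
    (fun ρ => tb c ρ) c
    (fun ρ z z' => ¬ HasTriangle (ins m w c ρ z z')) 0 (by
      rw [vol_zero]
      exact Nat.one_le_two_pow) (by
      rintro ρ z z' h ⟨e1, e2⟩
      unfold dst at h
      obtain ⟨i, hi⟩ := card_pos.1 h
      have hi' := (mem_filter.1 hi).2
      cases hz : z i with
      | true =>
        cases hz' : z' i with
        | true => exact hi' (by rw [hz, hz'])
        | false => exact e1 (yesTri hM2 hm1 hm2 hw c ρ z z' hz hz')
      | false =>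
        cases hz' : z' i with
        | true => exact e2 (yesTri hM2 hm1 hm2 hw c ρ z' z hz' hz)
        | false => exact hi' (by rw [hz, hz'])) R U (by
      intro r ρ z z' h
      exact hU r _ (valid hM2 hm1 hm2 hw c ρ z z') h) (by
      intro ρ z
      refine (hc _ (valid hM2 hm1 hm2 hw c ρ z z) (noTri hM2 hm1 hm2 hw c ρ z)).trans
        (Nat.mul_le_mul_right _ (Nat.pow_le_pow_right (by norm_num) ?_))
      rw [← hE]
      exact hdiv) (by
      intro r
      obtain ⟨f, hf1, hf2⟩ := hdeg r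
      refine ⟨f, hf1, ?_⟩
      calc ∑ v with fr (m := m) (w := w) M v ≠ none, f (U r).out v ≤
          ∑ v ∈ (univ : Finset (Fin m)).image (fun i => (i, true, (0 : Fin (w + 1)))),
            f (U r).out v := by
            apply sum_le_sum_of_subset
            rintro ⟨i, s, j⟩ hv
            rw [mem_filter] at hv
            rw [mem_image]
            refine ⟨i, mem_univ _, ?_⟩
            have h1 := hv.2
            unfold fr at h1
            by_cases hj : s = true ∧ j = 0
            · rw [hj.1, hj.2]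
            · rw [if_neg hj] at h1
              exact absurd rfl h1
        _ = ∑ i, f (U r).out (i, true, 0) := sum_image (by
            intro i _ j _ h
            exact (Prod.mk.injEq _ _ _ _ ▸ h).1)
        _ ≤ k * m := hf2
        _ ≤ k * (4 * M) := Nat.mul_le_mul_left _ hn4
        _ = 4 * k * M := by ring)
  refine ⟨r, ?_⟩
  rw [← hE] at hr
  calc m ≤ 4 * M := hn4
    _ ≤ 4 * (E * (Nat.log 2 (Fintype.card (U r).G) + 1)) := Nat.mul_le_mul_left _ hr
    _ = 4 * E * (Nat.log 2 (Fintype.card (U r).G) + 1) := by ring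
    _ ≤ D * (Nat.log 2 (Fintype.card (U r).G) + 1) := by
        apply Nat.mul_le_mul_right
        rw [hDE]
        exact Nat.mul_le_mul_right _ (by norm_num)

end Pool.Agent.K7.H45.FDT
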